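import Pool.Agent.X236.QB.Main

/-!
# Vojta's inequality on cyclic covers of the line with branch points of degree at most five
-/

set_option autoImplicit false

namespace Pool.Agent.X236.QB

open Finset Polynomial Pool.Agent.W4.CF Pool.Agent.W4.VC Pool.Agent.W4.QD

/-- the factors of a form -/
theorem exists_fac (g : ℤ[X]) (q : ℕ) (hg : Sqf g q) (N : ℕ) (E : ℝ)
    (hN : ∀ h : ℚ[X], Irreducible h → h ∣ g.map (Int.castRingHom ℚ) → h.natDegree ≤ N)
    (hE : ∀ n : ℕ, 3 ≤ n → n ≤ N → (n : ℝ) ^ 2 / (3 * n - 1) ≤ E) :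
    ∃ (k : ℕ) (f : Fin k → ℤ[X]) (n : Fin k → ℕ), (∀ i, (f i).natDegree ≤ n i) ∧
      (∀ i, Fac (f i) (n i) E) ∧ ∏ i, f i = g ∧ ∑ i, n i = q := by
  classical
  obtain ⟨hsq, hq1, hq2⟩ := hg
  have hg0 : g ≠ 0 := by
    rintro rfl
    rw [Polynomial.map_zero] at hsq
    exact not_squarefree_zero hsq
  obtain ⟨M, hM, u, hu⟩ := WfDvdMonoid.exists_factors g hg0
  obtain ⟨l, rfl⟩ : ∃ l : List ℤ[X], (l : Multiset ℤ[X]) = M := ⟨M.toList, M.coe_toList⟩
  rw [Multiset.prod_coe] at hu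
  have hu0 : ((u : ℤ[X])).natDegree = 0 := natDegree_eq_zero_of_isUnit u.isUnit
  set L : List (ℤ[X] × ℕ) := ((u : ℤ[X]), 0) :: (1, q - g.natDegree) ::
    l.map (fun b => (b, b.natDegree)) with hL
  have hmem : ∀ t ∈ L, t.1.natDegree ≤ t.2 ∧ Fac t.1 t.2 E := by
    intro t ht
    rw [hL, List.mem_cons, List.mem_cons, List.mem_map] at ht
    rcases ht with rfl | rfl | ⟨b, hb, rfl⟩
    · exact ⟨hu0.le, Or.inl (by omega)⟩
    · refine ⟨by simp, Or.inl ?_⟩
      show q - g.natDegree ≤ 2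
      omega
    · refine ⟨le_rfl, ?_⟩
      have hbi := hM b (by simpa using hb)
      by_cases h3 : b.natDegree ≤ 2
      · exact Or.inl h3
      · right
        have hprim : b.IsPrimitive := hbi.isPrimitive (by omega)
        have hirr := (IsPrimitive.Int.irreducible_iff_irreducible_map_cast hprim).1 hbi
        have hdvd : b ∣ g := by
          rw [← hu]
          exact (List.dvd_prod hb).mul_right _
        have h5 := hN _ hirr (Polynomial.map_dvd _ hdvd)
        rw [natDegree_map_eq_of_injective (by exact RingHom.injective_int _)] at h5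
        exact ⟨by show 3 ≤ b.natDegree; omega, hirr, rfl, hE _ (by omega) h5⟩
  refine ⟨L.length, fun i => (L[i.1]).1, fun i => (L[i.1]).2, fun i => (hmem _ (List.getElem_mem _)).1,
    fun i => (hmem _ (List.getElem_mem _)).2, ?_, ?_⟩
  · rw [Fin.prod_univ_fun_getElem L Prod.fst, hL]
    rw [List.map_cons, List.map_cons, List.map_map, List.prod_cons, List.prod_cons, one_mul]
    rw [← hu, mul_comm]
    congr 1
    congr 1
    exact List.map_id l
  · rw [Fin.sum_univ_fun_getElem L Prod.snd, hL]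
    rw [List.map_cons, List.map_cons, List.map_map, List.sum_cons, List.sum_cons]
    have h1 : g.natDegree = (l.map natDegree).sum := by
      have h0 : (0 : ℤ[X]) ∉ (l : Multiset ℤ[X]) := fun h0 => (hM 0 h0).ne_zero rfl
      have h00 : l.prod ≠ 0 := by
        intro h0
        rw [h0, zero_mul] at hu
        exact hg0 hu.symm
      have h3 := natDegree_multiset_prod (l : Multiset ℤ[X]) h0
      rw [Multiset.prod_coe, Multiset.map_coe, Multiset.sum_coe] at h3
      rw [← hu, natDegree_mul h00 u.ne_zero, hu0, add_zero, h3]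
    have h2 : (l.map (Prod.snd ∘ fun b : ℤ[X] => (b, b.natDegree))).sum = g.natDegree := by
      rw [h1]
      rfl
    rw [h2]
    show 0 + (q - g.natDegree + g.natDegree) = q
    omega

lemma expo_le {N : ℕ} (hN : N ≤ 5) : (N : ℝ) ^ 2 / (3 * N - 1) ≤ 2 := by
  interval_cases N <;> norm_num

lemma expo_mono {n N : ℕ} (h3 : 3 ≤ n) (h : n ≤ N) :
    (n : ℝ) ^ 2 / (3 * n - 1) ≤ (N : ℝ) ^ 2 / (3 * N - 1) := by
  have h1 : (3 : ℝ) ≤ n := by exact_mod_cast h3
  have h2 : (n : ℝ) ≤ N := by exact_mod_cast h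
  rw [div_le_div_iff₀ (by linarith) (by linarith)]
  nlinarith [mul_nonneg (sub_nonneg.2 h2) (by linarith : (0 : ℝ) ≤ n),
    mul_nonneg (sub_nonneg.2 h2) (mul_nonneg (by linarith : (0 : ℝ) ≤ n)
      (by linarith : (0 : ℝ) ≤ N - 1))]

/-- The inequality with proximity terms. -/
theorem general (m : ℕ) (hm : 2 ≤ m) (N : ℕ) (hN : N ≤ 5) (F g : ℤ[X]) (q e : ℕ)
    (hF : F.natDegree ≤ q) (hg : g.natDegree ≤ e) (hsq : Sqf (F * g) (q + e)) (hr : 1 ≤ q + e)
    (hfac : ∀ h : ℚ[X], Irreducible h → h ∣ F.map (Int.castRingHom ℚ) → h.natDegree ≤ N)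
    (S : Finset ℕ) (c δ : ℝ) (hδ : 0 < δ) :
    ∃ C : ℝ, ∀ B : ℝ, 1 ≤ B → ∃ T : Finset ℚ,
      (T.card : ℝ) ≤ C * B ^ (max ((4 : ℝ) / 3) ((N : ℝ) ^ 2 / (3 * N - 1)) + δ) ∧
      ∀ (x : ℚ) (y : ℂ), height x ≤ Real.log B →
      hom (F * g) (q + e) x.num x.den ≠ 0 →
      y ^ m = (hom F q x.num x.den : ℂ) → x ∉ T →
      (((q + e : ℕ) : ℝ) * height x -
        Real.log (off S (hom (F * g) (q + e) x.num x.den).natAbs)) +
        (q * (1 - 1 / m) - 2) * height x ≤ logDisc y + c := by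
  set E : ℝ := max ((4 : ℝ) / 3) ((N : ℝ) ^ 2 / (3 * N - 1)) with hE
  have hE1 : (4 : ℝ) / 3 ≤ E := le_max_left _ _
  have hE2 : E ≤ 2 := max_le (by norm_num) (expo_le hN)
  refine final_of Pool.Agent.W505.VC.t_HOM m hm F g q e hF hg S E (by linarith) ?_ c δ hδ
  intro c' ε hc' hε
  obtain ⟨hsqF, -⟩ := Pool.Agent.W290.VC.t_RES F g q e hF hg hsq
  obtain ⟨k, f, n, h1, h2, h3, h4⟩ := exists_fac F q hsqF N E hfac
    (fun n hn3 hnN => (expo_mono hn3 hnN).trans (le_max_right _ _))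
  subst h3 h4
  exact main t_LAT Pool.Agent.W327.VC.Selw.t_SELW hBIGG Pool.Agent.W505.VC.t_HOM
      Pool.Agent.W290.VC.t_RES k f n g e h1 E hE1 hE2 h2 hg hsq hr S c' ε hc' hε

end Pool.Agent.X236.QB
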