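import Pool.Agent.W4.VC.MainA

/-!
# The main count, part with small divisors, with a general exponent
-/

set_option autoImplicit false

namespace Pool.Agent.X236.QB

open Finset Polynomial Pool.Agent.W4.CF Pool.Agent.W4.VC

/-- one class -/
theorem classA (R : ℤ[X]) (r : ℕ) (S : Finset ℕ) (C0 ε1 c1 CR CU E : ℝ) (hE : (4 : ℝ) / 3 ≤ E) (hC0 : 0 < C0)
    (hε1 : 0 < ε1) (hc1 : 0 < c1) (hCR : 1 ≤ CR) (hCU : 1 ≤ CU)
    (hLAT : ∀ (Y ρ : ℝ) (N : ℕ), 1 ≤ Y → 0 ≤ ρ → 1 ≤ N → ∀ s : Finset (ℤ × ℤ),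
      (∀ p ∈ s, Dy Y p ∧ (N : ℤ) ∣ hom R r p.1 p.2 ∧ |((hom R r p.1 p.2 : ℤ) : ℝ)| ≤ ρ) →
      (s.card : ℝ) ≤ C0 * (N : ℝ) ^ ε1 * (ρ * Y ^ 2 / (Y ^ r * N) + 1))
    (Y : ℝ) (hY : 1 ≤ Y) (N0 k : ℕ) (hN0 : 1 ≤ N0) (s : Finset (ℤ × ℤ))
    (hs : ∀ p ∈ s, Dy Y p ∧ hom R r p.1 p.2 ≠ 0 ∧ on S (hom R r p.1 p.2).natAbs = N0 ∧
      (off S (hom R r p.1 p.2).natAbs : ℝ) ≤ CR * Y ^ r / 2 ^ k ∧
      (1 ≤ c1 * Y ^ ((2 : ℝ) / 3) / 2 ^ k → ∃ e : ℕ, e ^ 2 ∣ off S (hom R r p.1 p.2).natAbs ∧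
        c1 * Y ^ ((2 : ℝ) / 3) / 2 ^ k ≤ (e : ℝ) ∧ (e : ℝ) ≤ CU * Y ^ E)) :
    (s.card : ℝ) ≤ C0 * ((N0 : ℝ) * (CU * Y ^ E) ^ 2) ^ ε1 *
      ((2 * CR / c1 + 1 + CU) * Y ^ E) := by
  classical
  have hY0 : 0 < Y := by linarith
  have hN0' : (1 : ℝ) ≤ N0 := by exact_mod_cast hN0
  have hY43 : 1 ≤ Y ^ ((4 : ℝ) / 3) := Real.one_le_rpow hY (by norm_num)
  have hYE : Y ^ ((4 : ℝ) / 3) ≤ Y ^ E := Real.rpow_le_rpow_of_exponent_le hY hE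
  have hY2 : Y ^ 2 = Y ^ ((4 : ℝ) / 3) * Y ^ ((2 : ℝ) / 3) := by
    rw [← Real.rpow_add hY0, ← Real.rpow_natCast]
    norm_num
  set T : ℝ := c1 * Y ^ ((2 : ℝ) / 3) / 2 ^ k with hT
  set U : ℝ := CU * Y ^ E with hU
  have hU1 : 1 ≤ U := by rw [hU]; nlinarith
  have hT0 : 0 < T := by rw [hT]; positivity
  have h2k : (0 : ℝ) < 2 ^ k := by positivity
  have hYr : 0 < Y ^ r := by positivity
  -- `CR * Y^2 / 2^k = CR / c1 * Y^(4/3) * T`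
  have hkey : CR * Y ^ 2 / 2 ^ k = CR / c1 * Y ^ ((4 : ℝ) / 3) * T := by
    rw [hT, hY2]
    field_simp
  have habs : ∀ p ∈ s, |((hom R r p.1 p.2 : ℤ) : ℝ)| ≤ N0 * (CR * Y ^ r / 2 ^ k) := by
    intro p hp
    obtain ⟨-, h2, h3, h4, -⟩ := hs p hp
    have h5 := on_mul_off S (hom R r p.1 p.2).natAbs (Int.natAbs_ne_zero.mpr h2)
    rw [h3] at h5
    have h6 : |((hom R r p.1 p.2 : ℤ) : ℝ)| = ((hom R r p.1 p.2).natAbs : ℝ) := by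
      rw [Nat.cast_natAbs]; push_cast; rfl
    rw [h6, ← h5]
    push_cast
    gcongr
  have hρ0 : 0 ≤ (N0 : ℝ) * (CR * Y ^ r / 2 ^ k) := by positivity
  rcases lt_or_ge T 1 with hT1 | hT1
  · -- small T
    have h1 := hLAT Y ((N0 : ℝ) * (CR * Y ^ r / 2 ^ k)) N0 hY hρ0 hN0 s (by
      intro p hp
      obtain ⟨h1, h2, h3, -, -⟩ := hs p hp
      refine ⟨h1, ?_, habs p hp⟩
      rw [Int.natCast_dvd, ← h3]
      exact on_dvd S _ (Int.natAbs_ne_zero.mpr h2))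
    refine h1.trans ?_
    have h2 : (N0 : ℝ) * (CR * Y ^ r / 2 ^ k) * Y ^ 2 / (Y ^ r * N0) = CR * Y ^ 2 / 2 ^ k := by
      field_simp
    rw [h2, hkey]
    have h3 : CR / c1 * Y ^ ((4 : ℝ) / 3) * T + 1 ≤
        (2 * CR / c1 + 1 + CU) * Y ^ E := by
      have e1 : CR / c1 * Y ^ ((4 : ℝ) / 3) * T ≤ CR / c1 * Y ^ ((4 : ℝ) / 3) * 1 := by gcongr
      have e2 : 2 * CR / c1 = CR / c1 + CR / c1 := by ring
      have e3 : 0 ≤ CR / c1 := by positivity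
      rw [e2]
      have e4 : CR / c1 * Y ^ ((4 : ℝ) / 3) ≤ CR / c1 * Y ^ E := by gcongr
      nlinarith [mul_nonneg e3 (by linarith : (0 : ℝ) ≤ Y ^ E),
        mul_nonneg (by linarith : (0 : ℝ) ≤ CU) (by linarith : (0 : ℝ) ≤ Y ^ E)]
    have h4 : (N0 : ℝ) ^ ε1 ≤ ((N0 : ℝ) * U ^ 2) ^ ε1 := by
      have : (N0 : ℝ) ≤ N0 * U ^ 2 := by nlinarith [one_le_pow₀ hU1 (n := 2)]
      gcongr
    gcongr
  · -- large T
    set I := Icc ⌈T⌉₊ ⌊U⌋₊ with hI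
    have hcov : s ⊆ I.biUnion (fun e => s.filter
        (fun p => e ^ 2 ∣ off S (hom R r p.1 p.2).natAbs)) := by
      intro p hp
      obtain ⟨-, -, -, -, h5⟩ := hs p hp
      obtain ⟨e, he1, he2, he3⟩ := h5 hT1
      rw [mem_biUnion]
      refine ⟨e, ?_, mem_filter.mpr ⟨hp, he1⟩⟩
      rw [hI, mem_Icc]
      exact ⟨Nat.ceil_le.mpr he2, Nat.le_floor he3⟩
    have hone : ∀ e ∈ I, ((s.filter
        (fun p => e ^ 2 ∣ off S (hom R r p.1 p.2).natAbs)).card : ℝ) ≤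
        C0 * ((N0 : ℝ) * U ^ 2) ^ ε1 * (CR * Y ^ 2 / 2 ^ k * ((e : ℝ) ^ 2)⁻¹ + 1) := by
      intro e he
      rw [hI, mem_Icc] at he
      have he1 : 1 ≤ e := by
        have : 1 ≤ ⌈T⌉₊ := by rw [Nat.one_le_ceil_iff]; linarith
        omega
      have heR : (1 : ℝ) ≤ e := by exact_mod_cast he1
      have heU : (e : ℝ) ≤ U := by
        refine le_trans ?_ (Nat.floor_le (by linarith))
        exact_mod_cast he.2
      have h1 := hLAT Y ((N0 : ℝ) * (CR * Y ^ r / 2 ^ k)) (N0 * e ^ 2) hY hρ0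
        (Nat.mul_pos hN0 (by positivity)) (s.filter
        (fun p => e ^ 2 ∣ off S (hom R r p.1 p.2).natAbs)) (by
          intro p hp
          rw [mem_filter] at hp
          obtain ⟨h1, h2, h3, -, -⟩ := hs p hp.1
          refine ⟨h1, ?_, habs p hp.1⟩
          rw [Int.natCast_dvd, ← on_mul_off S (hom R r p.1 p.2).natAbs (Int.natAbs_ne_zero.mpr h2),
            h3]
          exact Nat.mul_dvd_mul_left N0 hp.2)
      refine h1.trans ?_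
      have h2 : (N0 : ℝ) * (CR * Y ^ r / 2 ^ k) * Y ^ 2 / (Y ^ r * ((N0 * e ^ 2 : ℕ) : ℝ)) =
          CR * Y ^ 2 / 2 ^ k * ((e : ℝ) ^ 2)⁻¹ := by
        push_cast
        field_simp
      rw [h2]
      have h3 : ((N0 * e ^ 2 : ℕ) : ℝ) ^ ε1 ≤ ((N0 : ℝ) * U ^ 2) ^ ε1 := by
        push_cast
        gcongr
      gcongr
    have hsum := sum_inv_sq T U hT1
    rw [← hI] at hsum
    have hIc : (I.card : ℝ) ≤ U := by
      have h1 : I.card ≤ ⌊U⌋₊ := by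
        rw [hI, Nat.card_Icc]
        have : 1 ≤ ⌈T⌉₊ := by rw [Nat.one_le_ceil_iff]; linarith
        omega
      exact le_trans (by exact_mod_cast h1) (Nat.floor_le (by linarith))
    calc (s.card : ℝ) ≤ ((I.biUnion (fun e => s.filter
          (fun p => e ^ 2 ∣ off S (hom R r p.1 p.2).natAbs))).card : ℝ) := by
          exact_mod_cast card_le_card hcov
      _ ≤ ∑ e ∈ I, ((s.filter
          (fun p => e ^ 2 ∣ off S (hom R r p.1 p.2).natAbs)).card : ℝ) := by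
          exact_mod_cast card_biUnion_le
      _ ≤ ∑ e ∈ I, C0 * ((N0 : ℝ) * U ^ 2) ^ ε1 * (CR * Y ^ 2 / 2 ^ k * ((e : ℝ) ^ 2)⁻¹ + 1) :=
          sum_le_sum hone
      _ = C0 * ((N0 : ℝ) * U ^ 2) ^ ε1 *
            (CR * Y ^ 2 / 2 ^ k * (∑ e ∈ I, ((e : ℝ) ^ 2)⁻¹) + I.card) := by
          rw [← mul_sum, sum_add_distrib, ← mul_sum, sum_const, nsmul_eq_mul, mul_one]
      _ ≤ C0 * ((N0 : ℝ) * U ^ 2) ^ ε1 * (CR * Y ^ 2 / 2 ^ k * (2 / T) + U) := by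
          gcongr
      _ ≤ _ := by
          have h5 : CR * Y ^ 2 / 2 ^ k * (2 / T) + U ≤
              (2 * CR / c1 + 1 + CU) * Y ^ E := by
            rw [hkey, hU]
            have : CR / c1 * Y ^ ((4 : ℝ) / 3) * T * (2 / T) = 2 * CR / c1 * Y ^ ((4 : ℝ) / 3) := by
              field_simp
            rw [this]
            have e4 : 2 * CR / c1 * Y ^ ((4 : ℝ) / 3) ≤ 2 * CR / c1 * Y ^ E := by gcongr
            nlinarith
          gcongr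

end Pool.Agent.X236.QB
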