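import Pool.Agent.X236.QB.Small
import Pool.Agent.X236.GP.Main

/-!
# Hyperelliptic curves with one branch form of even degree and others of degree at most five
-/

set_option autoImplicit false

namespace Pool.Agent.X236.QB

open Finset Polynomial IntermediateField Pool.Agent.W4.CF Pool.Agent.W4.VC Pool.Agent.X236.GP

/-- a function of the field -/
noncomputable def ldF (K : IntermediateField ℚ ℂ) : ℝ := by
  classical
  exact if _ : NumberField K then Real.log |(NumberField.discr K : ℝ)| / Module.finrank ℚ K else 0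

lemma logDisc_eq (y : ℂ) : logDisc y = ldF ℚ⟮y⟯ := rfl

lemma adjoin_div {y z : ℂ} {n : ℤ} (hn : n ≠ 0) (h : y = n * z) : ℚ⟮y⟯ = ℚ⟮z⟯ := by
  have hn' : (n : ℂ) ≠ 0 := by exact_mod_cast hn
  apply le_antisymm
  · rw [adjoin_simple_le_iff, h]
    have h1 : ((n : ℤ) : ℂ) ∈ ℚ⟮z⟯ := intCast_mem _ n
    exact mul_mem h1 (mem_adjoin_simple_self ℚ z)
  · rw [adjoin_simple_le_iff]
    have h1 : ((n : ℤ) : ℂ) ∈ ℚ⟮y⟯ := intCast_mem _ n
    have h2 : z = (n : ℂ)⁻¹ * y := by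
      rw [h]
      field_simp
    rw [h2]
    exact mul_mem (inv_mem h1) (mem_adjoin_simple_self ℚ y)

lemma sqf_abs {σ : ℤ} (h : Squarefree σ) : ∏ p ∈ σ.natAbs.primeFactors, p = σ.natAbs :=
  Nat.prod_primeFactors_of_squarefree (Int.squarefree_natAbs.2 h)

/-- the discriminant and the squarefree parts -/
lemma disc_ge {y : ℂ} {N1 N2 σ1 σ2 t1 t2 : ℤ} (h1 : N1 = σ1 * t1 ^ 2) (h2 : N2 = σ2 * t2 ^ 2)
    (hσ1 : Squarefree σ1) (hσ2 : Squarefree σ2) (hN1 : N1 ≠ 0) (hN2 : N2 ≠ 0)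
    (hy : y ^ 2 = ((N1 * N2 : ℤ) : ℂ)) {M : ℕ} (hM : 1 ≤ M)
    (hcom : ∀ p : ℕ, p.Prime → (p : ℤ) ∣ N1 → (p : ℤ) ∣ N2 → p ∣ M) :
    Real.log |(σ1 : ℝ)| + Real.log |(σ2 : ℝ)| ≤ 2 * Real.log M + 2 * logDisc y := by
  classical
  have ht1 : t1 ≠ 0 := by
    rintro rfl
    exact hN1 (by rw [h1]; ring)
  have ht2 : t2 ≠ 0 := by
    rintro rfl
    exact hN2 (by rw [h2]; ring)
  have hs1 : σ1 ≠ 0 := hσ1.ne_zero
  have hs2 : σ2 ≠ 0 := hσ2.ne_zero
  set z : ℂ := y / ((t1 * t2 : ℤ) : ℂ) with hz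
  have ht : t1 * t2 ≠ 0 := mul_ne_zero ht1 ht2
  have ht' : ((t1 * t2 : ℤ) : ℂ) ≠ 0 := by exact_mod_cast ht
  have hyz : y = ((t1 * t2 : ℤ) : ℂ) * z := by
    rw [hz]
    field_simp
  have hz2 : z ^ 2 = ((σ1 * σ2 : ℤ) : ℂ) := by
    rw [hz, div_pow, hy, div_eq_iff (pow_ne_zero 2 ht'), h1, h2]
    push_cast
    ring
  have hfield : ℚ⟮y⟯ = ℚ⟮z⟯ := adjoin_div ht hyz
  have hld : logDisc y = logDisc z := by
    rw [logDisc_eq, logDisc_eq, hfield]
  rw [hld]
  have hnf := Pool.Agent.H813R3.Voj.numberField_of_powM (m := 2) (by norm_num) hz2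
  set P : Finset ℕ := (σ1.natAbs.primeFactors ∪ σ2.natAbs.primeFactors).filter (fun p => ¬ p ∣ M)
    with hP
  have hdisc := log_disc (m := 2) (by norm_num) hz2 P (by
    intro p hp
    rw [hP, mem_filter, mem_union] at hp
    obtain ⟨hp1, hpM⟩ := hp
    have hpp : p.Prime := by
      rcases hp1 with h | h
      · exact Nat.prime_of_mem_primeFactors h
      · exact Nat.prime_of_mem_primeFactors h
    have hd1 : (p : ℤ) ∣ σ1 → (p : ℤ) ∣ N1 := fun h => by
      rw [h1]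
      exact h.mul_right _
    have hd2 : (p : ℤ) ∣ σ2 → (p : ℤ) ∣ N2 := fun h => by
      rw [h2]
      exact h.mul_right _
    have hsq : ∀ τ : ℤ, Squarefree τ → ¬ (p : ℤ) ^ 2 ∣ τ := by
      intro τ hτ hd
      rw [pow_two] at hd
      have h5 := hτ _ hd
      rw [Int.isUnit_iff] at h5
      have := hpp.two_le
      omega
    have hpi : Prime (p : ℤ) := Nat.prime_iff_prime_int.1 hpp
    have hmem : ∀ τ : ℤ, p ∈ τ.natAbs.primeFactors → (p : ℤ) ∣ τ := fun τ hτ =>
      Int.natCast_dvd.2 (Nat.dvd_of_mem_primeFactors hτ)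
    refine ⟨hpp, ?_, ?_⟩
    · rcases hp1 with h | h
      · exact (hmem _ h).mul_right _
      · exact (hmem _ h).mul_left _
    · intro hd
      by_cases hA : (p : ℤ) ∣ σ1
      · have hB : ¬ (p : ℤ) ∣ σ2 := fun hB => hpM (hcom p hpp (hd1 hA) (hd2 hB))
        have hcop : IsCoprime ((p : ℤ) ^ 2) σ2 :=
          IsCoprime.pow_left ((Prime.coprime_iff_not_dvd hpi).2 hB)
        exact hsq σ1 hσ1 (hcop.dvd_of_dvd_mul_right hd)
      · have hcop : IsCoprime ((p : ℤ) ^ 2) σ1 :=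
          IsCoprime.pow_left ((Prime.coprime_iff_not_dvd hpi).2 hA)
        exact hsq σ2 hσ2 (hcop.dvd_of_dvd_mul_left hd))
  have hdisc' : ∑ p ∈ P, Real.log p ≤ 2 * logDisc z := by
    have e1 : logDisc z = Real.log |(NumberField.discr ℚ⟮z⟯ : ℝ)| / Module.finrank ℚ ℚ⟮z⟯ := by
      unfold logDisc
      rw [dif_pos hnf]
    rw [e1]
    simp only [Nat.cast_ofNat] at hdisc
    linarith
  -- the product
  have hprod : σ1.natAbs * σ2.natAbs ≤ (∏ p ∈ P, p) * M ^ 2 := by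
    have e1 : ∀ τ : ℤ, Squarefree τ → τ.natAbs ≤
        (∏ p ∈ τ.natAbs.primeFactors.filter (fun p => ¬ p ∣ M), p) * M := by
      intro τ hτ
      conv_lhs => rw [← sqf_abs hτ, ← prod_filter_mul_prod_filter_not _ (fun p => p ∣ M), mul_comm]
      refine Nat.mul_le_mul_left _ ?_
      refine Nat.le_of_dvd (by omega) ?_
      refine Finset.prod_primes_dvd M ?_ ?_
      · intro p hp
        rw [mem_filter] at hp
        exact (Nat.prime_of_mem_primeFactors hp.1).prime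
      · intro p hp
        rw [mem_filter] at hp
        exact hp.2
    have hdis : Disjoint (σ1.natAbs.primeFactors.filter (fun p => ¬ p ∣ M))
        (σ2.natAbs.primeFactors.filter (fun p => ¬ p ∣ M)) := by
      rw [Finset.disjoint_left]
      intro p hp1 hp2
      rw [mem_filter] at hp1 hp2
      have g1 : (p : ℤ) ∣ σ1 := Int.natCast_dvd.2 (Nat.dvd_of_mem_primeFactors hp1.1)
      have g2 : (p : ℤ) ∣ σ2 := Int.natCast_dvd.2 (Nat.dvd_of_mem_primeFactors hp2.1)
      exact hp1.2 (hcom p (Nat.prime_of_mem_primeFactors hp1.1) (by rw [h1]; exact g1.mul_right _)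
        (by rw [h2]; exact g2.mul_right _))
    have e2 : P = (σ1.natAbs.primeFactors.filter (fun p => ¬ p ∣ M)) ∪
        (σ2.natAbs.primeFactors.filter (fun p => ¬ p ∣ M)) := by
      rw [hP, filter_union]
    rw [e2, prod_union hdis]
    calc σ1.natAbs * σ2.natAbs ≤
        ((∏ p ∈ σ1.natAbs.primeFactors.filter (fun p => ¬ p ∣ M), p) * M) *
        ((∏ p ∈ σ2.natAbs.primeFactors.filter (fun p => ¬ p ∣ M), p) * M) :=
          Nat.mul_le_mul (e1 σ1 hσ1) (e1 σ2 hσ2)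
      _ = _ := by ring
  have hPpos : ∀ p ∈ P, (p : ℝ) ≠ 0 := by
    intro p hp
    rw [hP, mem_filter, mem_union] at hp
    rcases hp.1 with h | h
    · exact_mod_cast (Nat.prime_of_mem_primeFactors h).ne_zero
    · exact_mod_cast (Nat.prime_of_mem_primeFactors h).ne_zero
  have hP0 : (0 : ℝ) < ((∏ p ∈ P, p : ℕ) : ℝ) := by
    push_cast
    exact prod_pos fun p hp => lt_of_le_of_ne (Nat.cast_nonneg p) (hPpos p hp).symm
  have hM0 : (0 : ℝ) < M := by exact_mod_cast hM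
  have hlog : Real.log (|(σ1 : ℝ)| * |(σ2 : ℝ)|) ≤ Real.log (((∏ p ∈ P, p : ℕ) : ℝ) * (M : ℝ) ^ 2) := by
    apply Real.log_le_log
    · have g1 : (σ1 : ℝ) ≠ 0 := by exact_mod_cast hs1
      have g2 : (σ2 : ℝ) ≠ 0 := by exact_mod_cast hs2
      positivity
    · have g3 : ((σ1.natAbs * σ2.natAbs : ℕ) : ℝ) ≤ (((∏ p ∈ P, p) * M ^ 2 : ℕ) : ℝ) := by
        exact_mod_cast hprod
      push_cast at g3 ⊢
      rw [Nat.cast_natAbs, Nat.cast_natAbs, Int.cast_abs, Int.cast_abs] at g3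
      exact g3
  rw [Real.log_mul (by have : (σ1 : ℝ) ≠ 0 := by exact_mod_cast hs1
                       positivity) (by have : (σ2 : ℝ) ≠ 0 := by exact_mod_cast hs2
                                       positivity), Real.log_mul hP0.ne' (by positivity),
    Real.log_pow, Nat.cast_prod, Real.log_prod hPpos] at hlog
  push_cast at hlog
  linarith

lemma sq_decomp (N : ℤ) : ∃ σ t : ℤ, N = σ * t ^ 2 ∧ Squarefree σ := by
  obtain ⟨a, b, h1, h2⟩ := Nat.sq_mul_squarefree N.natAbs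
  have h3 : (N.natAbs : ℤ) = b ^ 2 * a := by exact_mod_cast h1.symm
  rcases Int.natAbs_eq N with h | h
  · refine ⟨a, b, ?_, Int.squarefree_natCast.2 h2⟩
    rw [h, h3]
    ring
  · refine ⟨-a, b, ?_, ?_⟩
    · rw [h, h3]
      ring
    · rw [← Int.squarefree_natAbs, Int.natAbs_neg, Int.natAbs_natCast]
      exact h2

lemma hom_eval {f : ℤ[X]} {l : ℕ} (hl : f.natDegree ≤ 2 * l) (x : ℚ) :
    ((hom f (2 * l) x.num x.den : ℤ) : ℚ) = (x.den : ℚ) ^ (2 * l) * spc x f := by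
  rw [← hmg_eval hl x]
  congr 1
  unfold hom hmg
  symm
  refine sum_subset (range_subset_range.2 (by omega)) ?_
  intro k _ hk
  rw [mem_range, not_lt] at hk
  rw [coeff_eq_zero_of_natDegree_lt (by omega)]
  ring

lemma height_mx (x : ℚ) : height x = Real.log (mx (x.num, (x.den : ℤ))) := by
  unfold height mx
  congr 1
  rw [Nat.cast_max, Nat.cast_natAbs, Int.cast_abs]
  simp only [Int.cast_natCast]
  rw [abs_of_nonneg (Nat.cast_nonneg (α := ℝ) x.den)]

lemma mx_ge_one (x : ℚ) : 1 ≤ mx (x.num, (x.den : ℤ)) := by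
  unfold mx
  refine le_max_of_le_right ?_
  show (1 : ℝ) ≤ |((x.den : ℤ) : ℝ)|
  rw [Int.cast_natCast, abs_of_nonneg (Nat.cast_nonneg _)]
  exact_mod_cast x.den_pos

/-- **Hyperelliptic curves.** -/
theorem sextic (G H : ℤ[X]) (l h : ℕ) (hl : 1 ≤ l) (hh : 1 ≤ h) (hG : G.natDegree ≤ 2 * l)
    (hH : H.natDegree ≤ h) (hsq : Sqf (G * H) (2 * l + h))
    (hfac : ∀ g : ℚ[X], Irreducible g → g ∣ H.map (Int.castRingHom ℚ) → g.natDegree ≤ 5)
    (ε : ℝ) (hε0 : 0 < ε) (hε : ε ≤ 3 / 4) :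
    ∃ C : ℝ, ∀ B : ℝ, 1 ≤ B → ∃ T : Finset ℚ, (T.card : ℝ) ≤ C * B ^ (2 - ε / 4) ∧
      ∀ (x : ℚ) (y : ℂ), height x ≤ Real.log B → y ≠ 0 →
        y ^ 2 = (hom (G * H) (2 * l + h) x.num x.den : ℂ) → x ∉ T →
        ((h : ℝ) / 2 + 1 - ε) * height x < logDisc y := by
  classical
  obtain ⟨hsqG, hsqH, M, hM, hcom⟩ := Pool.Agent.W290.VC.t_RES G H (2 * l) h hG hH hsq
  set γ : ℝ := 4 * ε / 15 with hγ
  have hγ0 : 0 < γ := by positivity
  have hγ1 : γ ≤ 1 / 5 := by rw [hγ]; linarith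
  -- the form `G`
  have hGns : ∀ (c : ℚ) (k : ℚ[X]), G.map (Int.castRingHom ℚ) ≠ C c * k ^ 2 := by
    intro c k hk
    have h1 := hsqG.1
    have hdeg : (G.map (Int.castRingHom ℚ)).natDegree = G.natDegree :=
      natDegree_map_eq_of_injective (RingHom.injective_int _) _
    have h2 : 1 ≤ G.natDegree := by
      have := hsqG.2.2
      omega
    have h3 : IsUnit k := by
      refine h1 k ?_
      rw [hk, pow_two]
      exact dvd_mul_left _ _
    have h4 := natDegree_eq_zero_of_isUnit h3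
    rw [hk] at hdeg
    have h5 : (C c * k ^ 2).natDegree ≤ 0 := by
      refine natDegree_mul_le.trans ?_
      rw [natDegree_C, natDegree_pow, h4]
    omega
  obtain ⟨C1, hC1, hT1⟩ := main_poly G hGns (κ := 2 - 4 * γ) (δ := ε / 60) (by linarith)
    (by positivity)
  obtain ⟨C2, hC2, hT2⟩ := small_count H h hsqH hh hfac γ (ε / 60) hγ0 (by linarith) (by positivity)
  set Q : ℤ × ℤ → Prop := fun p => hom H h p.1 p.2 ≠ 0 ∧ ∃ σ t : ℤ,
    hom H h p.1 p.2 = σ * t ^ 2 ∧ |(σ : ℝ)| ≤ mx p ^ ((h : ℝ) - 3 * γ) with hQ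
  have hh1 : (1 : ℝ) ≤ h := by exact_mod_cast hh
  have hdy := dyadic (P := Q) (a := 2 - γ + ε / 60) (C := C2) (by linarith) hC2.le (by
    intro Y hY s hs
    refine hT2 Y hY s fun p hp => ?_
    obtain ⟨h1, h2, σ, t, h3, h4⟩ := hs p hp
    refine ⟨h1, h2, σ, t, h3, h4.trans ?_⟩
    refine Real.rpow_le_rpow (le_max_of_le_left (abs_nonneg _)) (max_le h1.2.1 h1.2.2.1) ?_
    linarith)
  -- the small heights
  set X0 : ℝ := Real.exp (15 * Real.log M / ε) with hX0
  set T0 : Finset ℚ := (fin_hgt X0).toFinset with hT0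
  refine ⟨C1 + 2 * C2 + T0.card, fun B hB => ?_⟩
  have hB0 : 0 < B := by linarith
  obtain ⟨T1, hT1c, hT1m⟩ := hT1 B hB
  set s : Finset (ℤ × ℤ) := (Icc (-⌊B⌋) ⌊B⌋ ×ˢ Icc (-⌊B⌋) ⌊B⌋).filter
    (fun p => IsCoprime p.1 p.2 ∧ mx p ≤ B ∧ Q p) with hs
  obtain ⟨k, hk⟩ := pow_unbounded_of_one_lt B (one_lt_two : (1 : ℝ) < 2)
  have hsc := hdy k B hB hk s (by
    intro p hp
    rw [hs, mem_filter] at hp
    exact hp.2)
  refine ⟨T1 ∪ s.image (fun p => (p.1 : ℚ) / p.2) ∪ T0, ?_, ?_⟩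
  · have e1 : (3 : ℝ) / 2 + (2 - 4 * γ) / 4 + ε / 60 = 2 - ε / 4 := by rw [hγ]; ring
    have e2 : (2 : ℝ) - γ + ε / 60 = 2 - ε / 4 := by rw [hγ]; ring
    rw [e1] at hT1c
    rw [e2] at hsc
    have e3 : (1 : ℝ) ≤ B ^ (2 - ε / 4) := Real.one_le_rpow hB (by linarith)
    have e4 : ((T1 ∪ s.image (fun p => (p.1 : ℚ) / p.2) ∪ T0).card : ℝ) ≤
        T1.card + s.card + T0.card := by
      exact_mod_cast (card_union_le _ _).trans (Nat.add_le_add_right
        ((card_union_le _ _).trans (Nat.add_le_add_left card_image_le _)) _)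
    refine e4.trans ?_
    have e5 : (T0.card : ℝ) ≤ T0.card * B ^ (2 - ε / 4) :=
      le_mul_of_one_le_right (Nat.cast_nonneg _) e3
    linarith
  · intro x y hx hy0 hy hxT
    rw [notMem_union, notMem_union] at hxT
    obtain ⟨⟨hx1, hx2⟩, hx3⟩ := hxT
    have hprod := Pool.Agent.W505.VC.t_HOM.1 G H (2 * l) h hG hH x.num x.den
    set N1 := hom G (2 * l) x.num x.den with hN1d
    set N2 := hom H h x.num x.den with hN2d
    have hy' : y ^ 2 = ((N1 * N2 : ℤ) : ℂ) := by rw [hy, hprod]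
    have hN12 : N1 * N2 ≠ 0 := by
      intro h0
      rw [h0, Int.cast_zero] at hy'
      exact hy0 (pow_eq_zero_iff (by norm_num)|>.mp hy')
    have hN1 : N1 ≠ 0 := left_ne_zero_of_mul hN12
    have hN2 : N2 ≠ 0 := right_ne_zero_of_mul hN12
    obtain ⟨σ1, t1, hs1, hq1⟩ := sq_decomp N1
    obtain ⟨σ2, t2, hs2, hq2⟩ := sq_decomp N2
    have hcop : IsCoprime x.num (x.den : ℤ) := by
      rw [Int.isCoprime_iff_gcd_eq_one]
      exact x.reduced
    have hmain := disc_ge hs1 hs2 hq1 hq2 hN1 hN2 hy' hM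
      (fun p hp h1 h2 => hcom x.num x.den hcop p hp h1 h2)
    set m : ℝ := mx (x.num, (x.den : ℤ)) with hm
    have hm1 : 1 ≤ m := mx_ge_one x
    have hhm : height x = Real.log m := height_mx x
    have hmB : m ≤ B := by
      rw [hhm] at hx
      exact (Real.log_le_log_iff (by linarith) hB0).mp hx
    have ht1 : t1 ≠ 0 := by
      rintro rfl
      exact hN1 (by rw [hs1]; ring)
    have hden : (x.den : ℚ) ≠ 0 := by exact_mod_cast x.den_ne_zero
    -- the squarefree part of `N1`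
    have hσ1 : m ^ (2 - 4 * γ) < |(σ1 : ℝ)| := by
      refine lt_of_le_of_lt ?_ (hT1m x σ1 (t1 / (x.den : ℚ) ^ l) hx hq1.ne_zero ?_ ?_ hx1)
      · exact Real.rpow_le_rpow (by linarith) hmB (by linarith)
      · have : (t1 : ℚ) ≠ 0 := by exact_mod_cast ht1
        positivity
      · have e1 := hom_eval hG x
        rw [← hN1d, hs1] at e1
        have e2 : (x.den : ℚ) ^ (2 * l) ≠ 0 := pow_ne_zero _ hden
        have e3 : spc x G = ((σ1 * t1 ^ 2 : ℤ) : ℚ) / (x.den : ℚ) ^ (2 * l) := by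
          rw [e1]
          field_simp
        rw [e3]
        push_cast
        rw [div_pow, ← pow_mul, mul_comm l 2]
        ring
    -- the squarefree part of `N2`
    have hσ2 : m ^ ((h : ℝ) - 3 * γ) < |(σ2 : ℝ)| := by
      by_contra hcon
      rw [not_lt] at hcon
      apply hx2
      rw [mem_image]
      refine ⟨(x.num, (x.den : ℤ)), ?_, ?_⟩
      · rw [hs, mem_filter, mem_product, mem_Icc, mem_Icc]
        have g1 : |x.num| ≤ ⌊B⌋ := by
          rw [Int.le_floor]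
          refine le_trans ?_ hmB
          rw [Int.cast_abs]
          exact le_max_left _ _
        have g2 : ((x.den : ℕ) : ℤ) ≤ ⌊B⌋ := by
          rw [Int.le_floor]
          refine le_trans ?_ hmB
          exact (le_abs_self _).trans (le_max_right _ _)
        refine ⟨⟨abs_le.mp g1, ⟨?_, g2⟩⟩, hcop, hmB, hN2, σ2, t2, hs2, hcon⟩
        have : (0 : ℤ) ≤ x.den := Int.natCast_nonneg _
        show -⌊B⌋ ≤ (x.den : ℤ)
        linarith
      · show (x.num : ℚ) / ((x.den : ℤ) : ℚ) = x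
        rw [Int.cast_natCast]
        exact Rat.num_div_den x
    -- the height is large
    have hbig : 15 * Real.log M / ε < height x := by
      by_contra hcon
      rw [not_lt] at hcon
      apply hx3
      rw [hT0, Set.Finite.mem_toFinset]
      have hX1 : 1 ≤ X0 := by
        rw [hX0]
        apply Real.one_le_exp
        have := Real.log_natCast_nonneg M
        positivity
      refine (hgt_iff hX1 x).1 ?_
      show height x ≤ Real.log X0
      rw [hX0, Real.log_exp]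
      exact hcon
    have hl1 := Real.log_lt_log (Real.rpow_pos_of_pos (by linarith) _) hσ1
    have hl2 := Real.log_lt_log (Real.rpow_pos_of_pos (by linarith) _) hσ2
    rw [Real.log_rpow (by linarith), ← hhm] at hl1 hl2
    rw [div_lt_iff₀ hε0] at hbig
    have hlogM := Real.log_natCast_nonneg M
    have e7 : (2 - 4 * γ) * height x + ((h : ℝ) - 3 * γ) * height x =
        2 * (((h : ℝ) / 2 + 1 - ε) * height x) + 2 / 15 * (height x * ε) := by
      rw [hγ]
      ring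
    linarith

end Pool.Agent.X236.QB
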