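import Pool.Agent.X236.QB.All

/-!
# The values of a form with small squarefree part, irreducible factors of degree at most five
-/

set_option autoImplicit false

namespace Pool.Agent.X236.QB

open Finset Polynomial Pool.Agent.W4.CF Pool.Agent.W4.VC Pool.Agent.W4.QD

lemma sel {T U : ℝ} (hT : 1 ≤ T) (hTU : T ^ 2 ≤ U) (t : ℕ) : t ≠ 0 → T ≤ t →
    (∃ e : ℕ, e ∣ t ∧ T ≤ e ∧ (e : ℝ) ≤ U) ∨ ∃ p : ℕ, p.Prime ∧ U < p ∧ p ∣ t := by
  induction t using Nat.strong_induction_on with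
  | _ t ih =>
    intro ht0 hTt
    by_cases hU : (t : ℝ) ≤ U
    · exact Or.inl ⟨t, dvd_rfl, hTt, hU⟩
    rw [not_le] at hU
    have ht1 : t ≠ 1 := by
      rintro rfl
      rw [Nat.cast_one] at hU
      nlinarith
    obtain ⟨p, hp, k, rfl⟩ := Nat.exists_prime_and_dvd ht1
    have hp0 : (0 : ℝ) < p := by exact_mod_cast hp.pos
    by_cases h1 : U < p
    · exact Or.inr ⟨p, hp, h1, dvd_mul_right _ _⟩
    by_cases h2 : T ≤ p
    · exact Or.inl ⟨p, dvd_mul_right _ _, h2, not_lt.1 h1⟩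
    rw [not_le] at h2
    have hk0 : k ≠ 0 := right_ne_zero_of_mul ht0
    have hk0' : (0 : ℝ) < k := by exact_mod_cast Nat.pos_of_ne_zero hk0
    have hTk : T ≤ k := by
      push_cast at hU
      by_contra hcon
      rw [not_le] at hcon
      nlinarith
    have hlt : k < p * k := by
      nlinarith [hp.two_le, Nat.pos_of_ne_zero hk0]
    rcases ih k hlt hk0 hTk with ⟨e, h3, h4, h5⟩ | ⟨l, h3, h4, h5⟩
    · exact Or.inl ⟨e, h3.mul_left _, h4, h5⟩
    · exact Or.inr ⟨l, h3, h4, h5.mul_left _⟩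

/-- few values have a small squarefree part -/
theorem small_count (H : ℤ[X]) (h : ℕ) (hsq : Sqf H h) (hh : 1 ≤ h)
    (hfac : ∀ g : ℚ[X], Irreducible g → g ∣ H.map (Int.castRingHom ℚ) → g.natDegree ≤ 5)
    (γ δ : ℝ) (hγ0 : 0 < γ) (hγ : γ ≤ 3 / 14) (hδ : 0 < δ) :
    ∃ C : ℝ, 0 < C ∧ ∀ Y : ℝ, 1 ≤ Y → ∀ s : Finset (ℤ × ℤ),
      (∀ p ∈ s, Dy Y p ∧ hom H h p.1 p.2 ≠ 0 ∧ ∃ σ t : ℤ, hom H h p.1 p.2 = σ * t ^ 2 ∧
        |(σ : ℝ)| ≤ Y ^ ((h : ℝ) - 3 * γ)) →
      (s.card : ℝ) ≤ C * Y ^ (2 - γ + δ) := by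
  classical
  obtain ⟨k, f, n, hf1, hf2, hf3, hf4⟩ := exists_fac H h hsq 5 (25 / 14) hfac
    (fun n hn3 hnN => (expo_mono hn3 hnN).trans (by norm_num))
  obtain ⟨CB, hCB, hbig⟩ := bigpart Pool.Agent.W505.VC.t_HOM Pool.Agent.W290.VC.t_RES hBIGG k f n hf1
    (25 / 14) (by norm_num) hf2 (by rw [hf3, hf4]; exact hsq) δ hδ
  rw [hf3, hf4] at hbig
  obtain ⟨C0, hC0, hLat⟩ := t_LAT H h hsq hh (δ / 4) (by positivity)
  obtain ⟨CR, hCR, hsize⟩ := Pool.Agent.W505.VC.t_HOM.2.1 H h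
  refine ⟨2 * C0 + CB + C0 * (CB ^ 2) ^ (δ / 4) * (2 * CR + CB), by positivity, fun Y hY s hs => ?_⟩
  have hY0 : 0 < Y := by linarith
  set T : ℝ := Y ^ γ with hT
  set U : ℝ := CB * Y ^ ((25 : ℝ) / 14) with hU
  have hT1 : 1 ≤ T := Real.one_le_rpow hY hγ0.le
  have hYU : 1 ≤ Y ^ ((25 : ℝ) / 14) := Real.one_le_rpow hY (by norm_num)
  have hU1 : 1 ≤ U := by rw [hU]; nlinarith
  have hTU : T ^ 2 ≤ U := by
    have h1 : T ^ 2 ≤ Y ^ ((25 : ℝ) / 14) := by
      rw [hT, ← Real.rpow_natCast, ← Real.rpow_mul hY0.le]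
      apply Real.rpow_le_rpow_of_exponent_le hY
      push_cast
      linarith
    rw [hU]
    nlinarith
  have hYh : 0 < Y ^ h := by positivity
  set A := s.filter (fun p => |((hom H h p.1 p.2 : ℤ) : ℝ)| ≤ Y ^ ((h : ℝ) - γ)) with hA
  set P := s.filter (fun p => ∃ l : ℕ, l.Prime ∧ CB * Y ^ ((25 : ℝ) / 14) < (l : ℝ) ∧
    (l : ℤ) ^ 2 ∣ hom H h p.1 p.2) with hP
  set I := Icc ⌈T⌉₊ ⌊U⌋₊ with hI
  have hcov : s ⊆ A ∪ P ∪ I.biUnion (fun e => s.filter
      (fun p => (e : ℤ) ^ 2 ∣ hom H h p.1 p.2)) := by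
    intro p hp
    obtain ⟨-, h2, σ, t, h3, h4⟩ := hs p hp
    by_cases hpA : |((hom H h p.1 p.2 : ℤ) : ℝ)| ≤ Y ^ ((h : ℝ) - γ)
    · exact mem_union_left _ (mem_union_left _ (mem_filter.2 ⟨hp, hpA⟩))
    rw [not_le] at hpA
    have hσ0 : σ ≠ 0 := by
      rintro rfl
      rw [zero_mul] at h3
      exact h2 h3
    have ht0 : t ≠ 0 := by
      rintro rfl
      rw [h3] at h2
      simp at h2
    have hTt : T ≤ (t.natAbs : ℝ) := by
      by_contra hcon
      rw [not_le] at hcon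
      have e1 : |((hom H h p.1 p.2 : ℤ) : ℝ)| = |(σ : ℝ)| * (t.natAbs : ℝ) ^ 2 := by
        rw [h3]
        push_cast
        rw [abs_mul, abs_pow, Nat.cast_natAbs, Int.cast_abs]
      rw [e1] at hpA
      have e2 : (t.natAbs : ℝ) ^ 2 ≤ T ^ 2 := by
        exact pow_le_pow_left₀ (Nat.cast_nonneg _) hcon.le 2
      have e3 : T ^ 2 = Y ^ (2 * γ) := by
        rw [hT, ← Real.rpow_natCast, ← Real.rpow_mul hY0.le]
        congr 1
        push_cast
        ring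
      have e4 : Y ^ ((h : ℝ) - γ) = Y ^ ((h : ℝ) - 3 * γ) * Y ^ (2 * γ) := by
        rw [← Real.rpow_add hY0]
        congr 1
        ring
      rw [e4, ← e3] at hpA
      have e5 : |(σ : ℝ)| * (t.natAbs : ℝ) ^ 2 ≤ Y ^ ((h : ℝ) - 3 * γ) * T ^ 2 := by
        gcongr
      linarith
    have hdiv : (t.natAbs : ℤ) ^ 2 ∣ hom H h p.1 p.2 := by
      rw [h3, Int.natCast_natAbs, sq_abs]
      exact dvd_mul_left _ _
    rcases sel hT1 hTU t.natAbs (Int.natAbs_ne_zero.2 ht0) hTt with ⟨e, h5, h6, h7⟩ | ⟨l, h5, h6, h7⟩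
    · refine mem_union_right _ (mem_biUnion.2 ⟨e, ?_, mem_filter.2 ⟨hp, ?_⟩⟩)
      · rw [hI, mem_Icc]
        exact ⟨Nat.ceil_le.mpr h6, Nat.le_floor h7⟩
      · refine dvd_trans ?_ hdiv
        exact pow_dvd_pow_of_dvd (Int.natCast_dvd_natCast.2 h5) 2
    · refine mem_union_left _ (mem_union_right _ (mem_filter.2 ⟨hp, l, h5, h6, ?_⟩))
      refine dvd_trans ?_ hdiv
      exact pow_dvd_pow_of_dvd (Int.natCast_dvd_natCast.2 h7) 2
  have hY2 : Y ^ (2 - γ) ≤ Y ^ (2 - γ + δ) := Real.rpow_le_rpow_of_exponent_le hY (by linarith)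
  have hAc : (A.card : ℝ) ≤ 2 * C0 * Y ^ (2 - γ + δ) := by
    have h1 := hLat Y (Y ^ ((h : ℝ) - γ)) 1 hY (by positivity) le_rfl A (by
      intro p hp
      rw [hA, mem_filter] at hp
      exact ⟨(hs p hp.1).1, by simp, hp.2⟩)
    refine h1.trans ?_
    have h2 : Y ^ ((h : ℝ) - γ) * Y ^ 2 / (Y ^ h * ((1 : ℕ) : ℝ)) = Y ^ (2 - γ) := by
      rw [Nat.cast_one, mul_one, div_eq_iff hYh.ne', ← Real.rpow_natCast Y 2,
        ← Real.rpow_natCast Y h, ← Real.rpow_add hY0, ← Real.rpow_add hY0]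
      congr 1
      push_cast
      ring
    rw [h2, Nat.cast_one, Real.one_rpow, mul_one]
    have h3 : 1 ≤ Y ^ (2 - γ) := Real.one_le_rpow hY (by linarith)
    nlinarith
  have hPc : (P.card : ℝ) ≤ CB * Y ^ (2 - γ + δ) := by
    refine (hbig Y hY P ?_).trans ?_
    · intro p hp
      rw [hP, mem_filter] at hp
      obtain ⟨h1, h2, -⟩ := hs p hp.1
      exact ⟨h1, h2, hp.2⟩
    · refine mul_le_mul_of_nonneg_left ?_ (by linarith)
      exact Real.rpow_le_rpow_of_exponent_le hY (by linarith)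
  have hone : ∀ e ∈ I, ((s.filter (fun p => (e : ℤ) ^ 2 ∣ hom H h p.1 p.2)).card : ℝ) ≤
      C0 * (U ^ 2) ^ (δ / 4) * (CR * Y ^ 2 * ((e : ℝ) ^ 2)⁻¹ + 1) := by
    intro e he
    rw [hI, mem_Icc] at he
    have he1 : 1 ≤ e := by
      have : 1 ≤ ⌈T⌉₊ := by rw [Nat.one_le_ceil_iff]; linarith
      omega
    have heR : (1 : ℝ) ≤ e := by exact_mod_cast he1
    have heU : (e : ℝ) ≤ U := by
      refine le_trans ?_ (Nat.floor_le (by linarith))
      exact_mod_cast he.2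
    have h1 := hLat Y (CR * Y ^ h) (e ^ 2) hY (by positivity) (Nat.one_le_pow _ _ he1)
      (s.filter (fun p => (e : ℤ) ^ 2 ∣ hom H h p.1 p.2)) (by
        intro p hp
        rw [mem_filter] at hp
        obtain ⟨h1, h2, -⟩ := hs p hp.1
        refine ⟨h1, by exact_mod_cast hp.2, (hsize p.1 p.2).trans ?_⟩
        have h3 : max |(p.1 : ℝ)| |(p.2 : ℝ)| ≤ Y := max_le h1.2.1 h1.2.2.1
        have h4 := pow_le_pow_left₀ (le_max_of_le_left (abs_nonneg _)) h3 h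
        gcongr)
    refine h1.trans ?_
    have h2 : CR * Y ^ h * Y ^ 2 / (Y ^ h * ((e ^ 2 : ℕ) : ℝ)) = CR * Y ^ 2 * ((e : ℝ) ^ 2)⁻¹ := by
      push_cast
      field_simp
    rw [h2]
    have h3 : ((e ^ 2 : ℕ) : ℝ) ^ (δ / 4) ≤ (U ^ 2) ^ (δ / 4) := by
      push_cast
      gcongr
    gcongr
  have hIc : (I.card : ℝ) ≤ U := by
    have h1 : I.card ≤ ⌊U⌋₊ := by
      rw [hI, Nat.card_Icc]
      have : 1 ≤ ⌈T⌉₊ := by rw [Nat.one_le_ceil_iff]; linarith
      omega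
    exact le_trans (by exact_mod_cast h1) (Nat.floor_le (by linarith))
  have hsum := sum_inv_sq T U hT1
  rw [← hI] at hsum
  have hEc : ((I.biUnion (fun e => s.filter
      (fun p => (e : ℤ) ^ 2 ∣ hom H h p.1 p.2))).card : ℝ) ≤
      C0 * (CB ^ 2) ^ (δ / 4) * (2 * CR + CB) * Y ^ (2 - γ + δ) := by
    calc ((I.biUnion (fun e => s.filter
          (fun p => (e : ℤ) ^ 2 ∣ hom H h p.1 p.2))).card : ℝ) ≤
          ∑ e ∈ I, ((s.filter (fun p => (e : ℤ) ^ 2 ∣ hom H h p.1 p.2)).card : ℝ) := by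
          exact_mod_cast card_biUnion_le
      _ ≤ ∑ e ∈ I, C0 * (U ^ 2) ^ (δ / 4) * (CR * Y ^ 2 * ((e : ℝ) ^ 2)⁻¹ + 1) := sum_le_sum hone
      _ = C0 * (U ^ 2) ^ (δ / 4) * (CR * Y ^ 2 * (∑ e ∈ I, ((e : ℝ) ^ 2)⁻¹) + I.card) := by
          rw [← mul_sum, sum_add_distrib, ← mul_sum, sum_const, nsmul_eq_mul, mul_one]
      _ ≤ C0 * (U ^ 2) ^ (δ / 4) * (CR * Y ^ 2 * (2 / T) + U) := by gcongr
      _ ≤ C0 * ((CB ^ 2) ^ (δ / 4) * Y ^ δ) * ((2 * CR + CB) * Y ^ (2 - γ)) := by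
          have h1 : (U ^ 2) ^ (δ / 4) ≤ (CB ^ 2) ^ (δ / 4) * Y ^ δ := by
            rw [hU, mul_pow, Real.mul_rpow (by positivity) (by positivity)]
            refine mul_le_mul_of_nonneg_left ?_ (by positivity)
            rw [← Real.rpow_natCast, ← Real.rpow_mul hY0.le, ← Real.rpow_mul hY0.le]
            apply Real.rpow_le_rpow_of_exponent_le hY
            push_cast
            linarith
          have h2 : CR * Y ^ 2 * (2 / T) + U ≤ (2 * CR + CB) * Y ^ (2 - γ) := by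
            have e1 : Y ^ 2 / T = Y ^ (2 - γ) := by
              rw [hT, Real.rpow_sub hY0, Real.rpow_two]
            have e2 : CR * Y ^ 2 * (2 / T) = 2 * CR * Y ^ (2 - γ) := by
              rw [← e1]
              ring
            have e3 : Y ^ ((25 : ℝ) / 14) ≤ Y ^ (2 - γ) :=
              Real.rpow_le_rpow_of_exponent_le hY (by linarith)
            rw [e2, hU, add_mul]
            gcongr
          gcongr
      _ = _ := by
          rw [show (2 : ℝ) - γ + δ = δ + (2 - γ) by ring, Real.rpow_add hY0]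
          ring
  calc (s.card : ℝ) ≤ ((A ∪ P ∪ I.biUnion (fun e => s.filter
      (fun p => (e : ℤ) ^ 2 ∣ hom H h p.1 p.2))).card : ℝ) := by
        exact_mod_cast card_le_card hcov
    _ ≤ (A.card : ℝ) + P.card + ((I.biUnion (fun e => s.filter
      (fun p => (e : ℤ) ^ 2 ∣ hom H h p.1 p.2))).card : ℝ) := by
        exact_mod_cast (card_union_le _ _).trans (Nat.add_le_add_right (card_union_le _ _) _)
    _ ≤ 2 * C0 * Y ^ (2 - γ + δ) + CB * Y ^ (2 - γ + δ) +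
        C0 * (CB ^ 2) ^ (δ / 4) * (2 * CR + CB) * Y ^ (2 - γ + δ) := by
        exact add_le_add (add_le_add hAc hPc) hEc
    _ = _ := by ring

/-- dyadic summation -/
theorem dyadic {P : ℤ × ℤ → Prop} {a C : ℝ} (ha : 1 ≤ a) (hC : 0 ≤ C)
    (h : ∀ Y : ℝ, 1 ≤ Y → ∀ s : Finset (ℤ × ℤ), (∀ p ∈ s, Dy Y p ∧ P p) →
      (s.card : ℝ) ≤ C * Y ^ a) (k : ℕ) :
    ∀ B : ℝ, 1 ≤ B → B < 2 ^ k → ∀ s : Finset (ℤ × ℤ),
      (∀ p ∈ s, IsCoprime p.1 p.2 ∧ mx p ≤ B ∧ P p) → (s.card : ℝ) ≤ 2 * C * B ^ a := by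
  classical
  induction k with
  | zero =>
    intro B hB hB2
    rw [pow_zero] at hB2
    linarith
  | succ k ih =>
    intro B hB hB2 s hs
    have hB0 : 0 < B := by linarith
    set s1 := s.filter (fun p => B ≤ 2 * mx p) with hs1
    set s2 := s.filter (fun p => ¬ B ≤ 2 * mx p) with hs2
    have hc : s.card = s1.card + s2.card := (card_filter_add_card_filter_not _).symm
    have h1 : (s1.card : ℝ) ≤ C * B ^ a := by
      refine h B hB s1 ?_
      intro p hp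
      rw [hs1, mem_filter] at hp
      obtain ⟨h1, h2, h3⟩ := hs p hp.1
      exact ⟨⟨h1, (le_max_left _ _).trans h2, (le_max_right _ _).trans h2, hp.2⟩, h3⟩
    have h2 : (s2.card : ℝ) ≤ C * B ^ a := by
      by_cases hB1 : 1 ≤ B / 2
      · have h3 := ih (B / 2) hB1 (by rw [pow_succ] at hB2; linarith) s2 (by
          intro p hp
          rw [hs2, mem_filter, not_le] at hp
          obtain ⟨h1, h2, h3⟩ := hs p hp.1
          exact ⟨h1, by linarith [hp.2], h3⟩)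
        refine h3.trans ?_
        rw [Real.div_rpow hB0.le (by norm_num)]
        have h4 : (2 : ℝ) ≤ 2 ^ a := by
          calc (2 : ℝ) = 2 ^ (1 : ℝ) := (Real.rpow_one 2).symm
            _ ≤ 2 ^ a := Real.rpow_le_rpow_of_exponent_le (by norm_num) ha
        rw [mul_div_assoc', div_le_iff₀ (by positivity)]
        have h5 : 0 ≤ C * B ^ a := by positivity
        nlinarith
      · have h3 : s2 = ∅ := by
          rw [eq_empty_iff_forall_notMem]
          intro p hp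
          rw [hs2, mem_filter, not_le] at hp
          obtain ⟨h1, -⟩ := hs p hp.1
          rw [not_le] at hB1
          have h4 : mx p < 1 := by linarith [hp.2]
          have h5 : |(p.1 : ℝ)| < 1 := lt_of_le_of_lt (le_max_left _ _) h4
          have h6 : |(p.2 : ℝ)| < 1 := lt_of_le_of_lt (le_max_right _ _) h4
          have h7 : p.1 = 0 := by
            have : |p.1| < 1 := by exact_mod_cast h5
            exact Int.abs_lt_one_iff.1 this
          have h8 : p.2 = 0 := by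
            have : |p.2| < 1 := by exact_mod_cast h6
            exact Int.abs_lt_one_iff.1 this
          rw [h7, h8] at h1
          obtain ⟨u, v, huv⟩ := h1
          simp at huv
        rw [h3, card_empty, Nat.cast_zero]
        positivity
    rw [hc]
    push_cast
    linarith

end Pool.Agent.X236.QB
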